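import Pool.Agent.H97.LAY.Stmts5

set_option autoImplicit false

namespace Pool.LAY

open Finset

theorem unu_zero (xs : List ℝ) : ∀ ls : List ℕ, xs.length < ls.length → Q ls xs = 0 := by
  induction xs with
  | nil =>
    intro ls h
    cases ls with
    | nil => simp at h
    | cons l ls => simp [Q]
  | cons x xs ih =>
    intro ls h
    cases ls with
    | nil => simp at h
    | cons l ls =>
      simp only [List.length_cons] at h
      rw [Q, ih ls (by omega), ih (l :: ls) (by simp only [List.length_cons]; omega)]
      simp

theorem unu_sum (xs : List ℝ) : ∀ i : ℕ, i < xs.length →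
    (xs.eraseIdx i).sum + xs.getD i 0 = xs.sum := by
  induction xs with
  | nil =>
    intro i h
    simp at h
  | cons x xs ih =>
    intro i h
    cases i with
    | zero => simp [add_comm]
    | succ i =>
      simp only [List.length_cons] at h
      have := ih i (by omega)
      simp only [List.eraseIdx_cons_succ, List.sum_cons, List.getD_cons_succ]
      linarith

theorem UNU (hQAP : QAPStmt) (hERA : ERAStmt) (hIMH : IMHStmt) (hQNN : QNNStmt) : UNUStmt := by
  intro cs rs pre post hcs hls hlen hmax
  set ls : List ℕ := cs ++ rs with hls'
  set P : ℝ := Q ls (pre ++ post) with hP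
  have hNN : NN (pre ++ post) := hmax.1
  have hpre : NN pre := fun x hx => hNN x (List.mem_append_left _ hx)
  have hpost : NN post := fun x hx => hNN x (List.mem_append_right _ hx)
  have hne : ls ≠ [] := by
    rw [hls']
    intro h
    exact hcs (List.append_eq_nil_iff.1 h).1
  have hl : ls.length + 1 = pre.length + (rs.length + 1) := by
    rw [hls', List.length_append, hlen]
    omega
  -- the expansion
  have h1 : P = ∑ j ∈ range pre.length, Q (ls.take j) pre * Q (ls.drop j) post +
      Q cs pre * Q rs post := by
    rw [hP, hQAP, hl, Finset.sum_range_add, Finset.sum_range_succ']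
    have h0 : ∑ k ∈ range rs.length, Q (ls.take (pre.length + (k + 1))) pre *
        Q (ls.drop (pre.length + (k + 1))) post = 0 := by
      apply Finset.sum_eq_zero
      intro k hk
      rw [Finset.mem_range] at hk
      rw [unu_zero, zero_mul]
      rw [List.length_take, hls', List.length_append, hlen]
      omega
    rw [h0, zero_add, add_zero]
    have e1 : ls.take pre.length = cs := by
      rw [hls', hlen]
      simp
    have e2 : ls.drop pre.length = rs := by
      rw [hls', hlen]
      simp
    rw [e1, e2]
  have h2 : P - Q cs pre * Q rs post =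
      ∑ j ∈ range pre.length, Q (ls.take j) pre * Q (ls.drop j) post := by
    rw [h1]
    ring
  rw [h2]
  have h3 : ∑ j ∈ range pre.length, Q (ls.take j) pre * Q (ls.drop j) post ≤
      ∑ j ∈ range pre.length, ∑ i ∈ range pre.length,
        Q (ls.take j) (pre.eraseIdx i) * Q (ls.drop j) post := by
    apply Finset.sum_le_sum
    intro j hj
    rw [Finset.mem_range] at hj
    rw [← Finset.sum_mul]
    apply mul_le_mul_of_nonneg_right _ (hQNN _ _ hpost).1
    apply hERA _ _ hpre
    rw [List.length_take]
    omega
  refine h3.trans ?_
  rw [Finset.sum_comm]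
  apply Finset.sum_le_sum
  intro i hi
  rw [Finset.mem_range] at hi
  have hEr : NN (pre.eraseIdx i) := fun x hx => hpre x (List.mem_of_mem_eraseIdx hx)
  have hNE : NN (pre.eraseIdx i ++ post) := by
    intro x hx
    rcases List.mem_append.1 hx with h | h
    · exact hEr x h
    · exact hpost x h
  have h4 : ∑ j ∈ range pre.length, Q (ls.take j) (pre.eraseIdx i) * Q (ls.drop j) post ≤
      Q ls (pre.eraseIdx i ++ post) := by
    rw [hQAP]
    apply Finset.sum_le_sum_of_subset_of_nonneg
    · intro j hj
      rw [Finset.mem_range] at hj ⊢
      omega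
    · intro j _ _
      exact mul_nonneg (hQNN _ _ hEr).1 (hQNN _ _ hpost).1
  refine h4.trans ?_
  have h5 := hIMH ls (pre ++ post) (pre.eraseIdx i ++ post) hne hls hmax hNE
  have h6 : (pre.eraseIdx i ++ post).sum = 1 - pre.getD i 0 := by
    have e1 := unu_sum pre i hi
    have e2 := hmax.2.1
    rw [List.sum_append] at e2 ⊢
    linarith
  rw [h6] at h5
  rw [mul_comm]
  exact h5

end Pool.LAY
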