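import Pool.Agent.H97.LAY.Stmts4

set_option autoImplicit false

namespace Pool.LAY

open Finset

theorem PV2 (hAPP : APPStmt) (hSUB : SUBStmt) (hPOW : POWStmt) (hMTY : MTYStmt) : PV2Stmt := by
  intro as bs X M Y l m T has hbs hl hm hT
  set K : ℕ := as.length + bs.length + 3 with hK
  set A : ℕ := D (as ++ [l, m]) X * T ^ bs.sum with hA
  set B : ℕ := T ^ as.sum * D (l :: m :: bs) Y with hB
  set E : ℕ := K * (M.sum * T ^ (as.sum + l + m + bs.sum - 1)) with hE
  set W : ℕ := D (as ++ [l]) X * D (m :: bs) Y with hW
  have hX : X.sum ≤ T := by omega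
  have hMY : M.sum + Y.sum ≤ T := by omega
  have hY : Y.sum ≤ T := by omega
  have hZ : (M ++ Y).sum ≤ T := by rw [List.sum_append]; omega
  have pw : ∀ (L Z : List ℕ), (∀ a ∈ L, 1 ≤ a) → Z.sum ≤ T → D L Z ≤ T ^ L.sum := by
    intro L Z h1 h2
    exact (hPOW L Z h1).trans (Nat.pow_le_pow_left h2 _)
  have key : ∀ i ∈ range ((as ++ l :: m :: bs).length + 1),
      D ((as ++ l :: m :: bs).take i) X * D ((as ++ l :: m :: bs).drop i) (M ++ Y) ≤
        (if i = as.length + 1 then W else 0) + (A + B + E) := by
    intro i hi
    rcases lt_trichotomy i (as.length + 1) with h | h | h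
    · -- `i ≤ as.length`
      have h' : i ≤ as.length := by omega
      rw [if_neg (by omega)]
      have e1 : (as ++ l :: m :: bs).take i = as.take i := by
        rw [List.take_append_of_le_length h']
      have e2 : (as ++ l :: m :: bs).drop i = as.drop i ++ l :: m :: bs := by
        rw [List.drop_append_of_le_length h']
      rw [e1, e2]
      have t1 : ∀ a ∈ as.take i, 1 ≤ a := fun a ha => has a (List.mem_of_mem_take ha)
      have t2 : ∀ a ∈ as.drop i, 1 ≤ a := fun a ha => has a (List.mem_of_mem_drop ha)
      have t3 : ∀ a ∈ as.drop i ++ l :: m :: bs, 1 ≤ a := by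
        intro a ha
        simp only [List.mem_append, List.mem_cons] at ha
        rcases ha with ha | ha | ha | ha
        · exact t2 a ha
        · rw [ha]; exact hl
        · rw [ha]; exact hm
        · exact hbs a ha
      have hsum : (as.take i).sum + (as.drop i).sum = as.sum := List.sum_take_add_sum_drop as i
      have b1 := pw _ _ t1 hX
      have b2 := hMTY (as.drop i ++ l :: m :: bs) M Y T t3 hMY
      have b3 : D (as.drop i ++ l :: m :: bs) Y ≤ T ^ (as.drop i).sum * D (l :: m :: bs) Y :=
        (hSUB _ _ _).trans (Nat.mul_le_mul_right _ (pw _ _ t2 hY))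
      have hlen : (as.drop i ++ l :: m :: bs).length ≤ K := by
        simp only [List.length_append, List.length_drop, List.length_cons]; omega
      have hsm : (as.drop i ++ l :: m :: bs).sum = (as.drop i).sum + l + m + bs.sum := by
        simp only [List.sum_append, List.sum_cons]; omega
      rw [hsm] at b2
      calc D (as.take i) X * D (as.drop i ++ l :: m :: bs) (M ++ Y)
          ≤ T ^ (as.take i).sum * (T ^ (as.drop i).sum * D (l :: m :: bs) Y +
              K * (M.sum * T ^ ((as.drop i).sum + l + m + bs.sum - 1))) := by
            refine Nat.mul_le_mul b1 (b2.trans ?_)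
            exact Nat.add_le_add b3 (Nat.mul_le_mul_right _ hlen)
        _ = B + E := by
            have e3 : as.sum + l + m + bs.sum - 1 =
                (as.take i).sum + ((as.drop i).sum + l + m + bs.sum - 1) := by omega
            rw [hB, hE, e3, pow_add, ← hsum, pow_add]
            ring
        _ ≤ 0 + (A + B + E) := by omega
    · -- `i = as.length + 1`
      rw [if_pos h]
      have e1 : (as ++ l :: m :: bs).take i = as ++ [l] := by
        rw [h, List.take_append]
        simp
      have e2 : (as ++ l :: m :: bs).drop i = m :: bs := by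
        rw [h, List.drop_append]
        simp
      rw [e1, e2]
      have t1 : ∀ a ∈ as ++ [l], 1 ≤ a := by
        intro a ha
        simp only [List.mem_append, List.mem_singleton] at ha
        rcases ha with ha | ha
        · exact has a ha
        · rw [ha]; exact hl
      have t2 : ∀ a ∈ m :: bs, 1 ≤ a := by
        intro a ha
        simp only [List.mem_cons] at ha
        rcases ha with ha | ha
        · rw [ha]; exact hm
        · exact hbs a ha
      have b1 := pw _ _ t1 hX
      have b2 := hMTY (m :: bs) M Y T t2 hMY
      have hlen : (m :: bs).length ≤ K := by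
        simp only [List.length_cons]; omega
      have hsm : (m :: bs).sum = m + bs.sum := by simp
      have hsl : (as ++ [l]).sum = as.sum + l := by simp
      rw [hsm] at b2
      rw [hsl] at b1
      calc D (as ++ [l]) X * D (m :: bs) (M ++ Y)
          ≤ D (as ++ [l]) X * (D (m :: bs) Y + K * (M.sum * T ^ (m + bs.sum - 1))) := by
            refine Nat.mul_le_mul_left _ (b2.trans ?_)
            exact Nat.add_le_add_left (Nat.mul_le_mul_right _ hlen) _
        _ = W + D (as ++ [l]) X * (K * (M.sum * T ^ (m + bs.sum - 1))) := by
            rw [hW]; ring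
        _ ≤ W + T ^ (as.sum + l) * (K * (M.sum * T ^ (m + bs.sum - 1))) :=
            Nat.add_le_add_left (Nat.mul_le_mul_right _ b1) _
        _ = W + E := by
            have e3 : as.sum + l + m + bs.sum - 1 = (as.sum + l) + (m + bs.sum - 1) := by omega
            rw [hE, e3, pow_add]
            ring
        _ ≤ W + (A + B + E) := by omega
    · -- `i ≥ as.length + 2`
      rw [if_neg (by omega)]
      obtain ⟨j, rfl⟩ : ∃ j, i = as.length + (j + 2) := ⟨i - as.length - 2, by omega⟩
      have e1 : (as ++ l :: m :: bs).take (as.length + (j + 2)) = (as ++ [l, m]) ++ bs.take j := by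
        rw [List.take_append]
        simp
      have e2 : (as ++ l :: m :: bs).drop (as.length + (j + 2)) = bs.drop j := by
        rw [List.drop_append]
        simp
      rw [e1, e2]
      have t1 : ∀ a ∈ bs.take j, 1 ≤ a := fun a ha => hbs a (List.mem_of_mem_take ha)
      have t2 : ∀ a ∈ bs.drop j, 1 ≤ a := fun a ha => hbs a (List.mem_of_mem_drop ha)
      have hsum : (bs.take j).sum + (bs.drop j).sum = bs.sum := List.sum_take_add_sum_drop bs j
      calc D ((as ++ [l, m]) ++ bs.take j) X * D (bs.drop j) (M ++ Y)
          ≤ (D (as ++ [l, m]) X * T ^ (bs.take j).sum) * T ^ (bs.drop j).sum := by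
            refine Nat.mul_le_mul ((hSUB _ _ _).trans (Nat.mul_le_mul_left _ (pw _ _ t1 hX)))
              (pw _ _ t2 hZ)
        _ = A := by
            rw [hA, ← hsum, pow_add]
            ring
        _ ≤ 0 + (A + B + E) := by omega
  rw [hAPP]
  refine (Finset.sum_le_sum key).trans ?_
  rw [Finset.sum_add_distrib, Finset.sum_ite_eq', Finset.sum_const, Finset.card_range, smul_eq_mul]
  have hlen : (as ++ l :: m :: bs).length + 1 = K := by
    simp only [List.length_append, List.length_cons]; omega
  rw [hlen, if_pos (Finset.mem_range.2 (by omega))]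

end Pool.LAY
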